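import Pool.Agent.Helper753_MagHom.Final

/-!
# The intersection lattice determines the magnitude homology of a real hyperplane arrangement
-/

set_option autoImplicit false

namespace Pool.Agent.Results.MP_1c795d_co.LatticeDetermines

open Pool.Agent.Helper753_MagHom

/-- Two real hyperplane arrangements (possibly in different dimensions) whose intersection
lattices are isomorphic posets have isomorphic magnitude homology groups in all bidegrees. -/
theorem result : ∀ (d d' : ℕ) (A : Arrangement d) (A' : Arrangement d'),
    Nonempty (A.Flat ≃o A'.Flat) →
      ∀ k l : ℕ, Nonempty (MH A.topeGraph k l ≃+ MH A'.topeGraph k l) := by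
  intro d d' A A' h k l
  exact MH_lattice A A' h k l

end Pool.Agent.Results.MP_1c795d_co.LatticeDetermines
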